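import Mathlib
import Pool.Agent.H82.DArrow

set_option autoImplicit false

namespace Pool.Agent.Results.MP_4cc686_gt.OpenImageRaisesHd

open Set Cardinal Pool.Agent.H82.DArrow Pool.Agent.H82.FS

/-- density: the least cardinality of a dense subset -/
noncomputable def density (Z : Type) [TopologicalSpace Z] : Cardinal :=
  ⨅ D : {D : Set Z // Dense D}, #(D : Set Z)

/-- hereditary density, taken to be infinite -/
noncomputable def hd (X : Type) [TopologicalSpace X] : Cardinal :=
  max ℵ₀ (⨆ A : Set X, density A)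

theorem result : ∃ (X Y : Type) (_ : TopologicalSpace X) (_ : TopologicalSpace Y),
    T35Space X ∧ T35Space Y ∧
    ∃ φ : {f : X → ℝ // Continuous f} → {g : Y → ℝ // Continuous g},
      Continuous φ ∧ IsOpenMap φ ∧ Function.Surjective φ ∧ hd X < hd Y := by
  refine ⟨DA, Y, inferInstance, inferInstance, t35, Pool.Agent.H82.FS.t35 le_rfl, T, T_cont, T_open,
    T_surj, ?_⟩
  have h1 : hd DA ≤ ℵ₀ := by
    refine max_le le_rfl (ciSup_le' fun A => ?_)
    obtain ⟨D, h1, h2, h3⟩ := sep A
    refine ciInf_le_of_le (OrderBot.bddBelow _) ⟨Subtype.val ⁻¹' D, ?_⟩ ?_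
    · rw [Subtype.dense_iff, Subtype.image_preimage_coe, inter_eq_right.2 h1]
      exact h3
    · exact le_aleph0_iff_set_countable.2 (h2.preimage Subtype.val_injective)
  refine h1.trans_lt (lt_max_of_lt_right (lt_of_lt_of_le ?_
    (le_ciSup (f := fun A : Set Y => density A) bddAbove_of_small (range (pt _)))))
  have : Nonempty {D : Set (range (pt (Filter.cofinite : Filter I))) // Dense D} :=
    ⟨⟨Set.univ, dense_univ⟩⟩
  refine aleph0_lt_continuum.trans_le (le_ciInf fun D => ?_)
  have h2 : D.1 = Set.univ := by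
    refine eq_univ_of_forall ?_
    rintro ⟨_, a, rfl⟩
    obtain ⟨y, h3, h4⟩ := D.2.inter_open_nonempty (Subtype.val ⁻¹' {pt _ a})
      ((isOpen_iff.2 fun h => (pt_ne a h.symm).elim).preimage continuous_subtype_val)
      ⟨⟨_, a, rfl⟩, rfl⟩
    rwa [← show y = ⟨_, a, rfl⟩ from Subtype.ext h3]
  rw [h2, mk_univ, mk_range_eq _ pt_inj, mk_Icc_real zero_lt_one]

end Pool.Agent.Results.MP_4cc686_gt.OpenImageRaisesHd
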